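import Pool.Agent.Helper76.TL.StC
import Pool.Agent.Helper99.W5.M_Split

/-!
# Project TL, module SPLE: splitting with the sign `-1`
-/

set_option autoImplicit false

namespace Pool.Agent.Helper33.TL

open Pool.Agent.Helper76.TL Pool.Agent.Helper4.TL Pool.Agent.Helper14.W5
open Pool.Agent.Helper99.W5

theorem hSplE : ESplit := by
  intro μ m hm φ hφ
  have : NeZero (5 ^ m) := ⟨by positivity⟩
  set τ : Pt m → Pt m := fun q => ng (dR μ q) with hτ
  have hmemτ : ∀ F ∈ anti5 m, LinearMap.funLeft ℂ ℂ τ F ∈ anti5 m := by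
    intro F hF
    exact split_mem_dR hm μ (split_mem_ng hF)
  let L : anti5 m →ₗ[ℂ] anti5 m :=
    LinearMap.id + (LinearMap.funLeft ℂ ℂ τ).restrict hmemτ
  have hL : ∀ (g : anti5 m) (p : Pt m), (L g).1 p = g.1 p + g.1 (τ p) := fun g p => rfl
  have hinjg : ∀ g : anti5 m, (∀ p, g.1 (τ p) = -g.1 p) → g = 0 := by
    intro g hg
    have hit : ∀ (k : ℕ) (p : Pt m), g.1 (τ^[k] p) = (-1) ^ k * g.1 p := by
      intro k
      induction k with
      | zero => intro p; simp
      | succ k ih =>
        intro p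
        rw [Function.iterate_succ_apply', hg, ih, pow_succ]
        ring
    have h := fun p : Pt m => hit (5 * 5 ^ (m - 1)) p
    have h5m : 5 * 5 ^ (m - 1) = 5 ^ m := by
      rw [← pow_succ']
      congr 1
      omega
    have hodd : Odd (5 * 5 ^ (m - 1)) := by
      rw [h5m]
      exact Odd.pow (by decide)
    have hcast : ((5 * 5 ^ (m - 1) : ℕ) : ZMod (5 ^ m)) = 0 := by
      rw [h5m]
      exact ZMod.natCast_self _
    ext p
    have h0 := h p
    rw [hτ, split_iter, hcast, add_zero, zero_mul, mul_zero, add_zero, ZMod.inv_one, mul_one,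
      hodd.neg_one_pow] at h0
    have h1 : g.1 p = -1 * g.1 p := h0
    have h2 : g.1 p = 0 := by linear_combination (1 / 2 : ℂ) * h1
    simpa using h2
  have hinj : Function.Injective L := by
    rw [injective_iff_map_eq_zero]
    intro g hg
    refine hinjg g (fun p => ?_)
    have := hL g p
    rw [hg] at this
    have h0 : (0 : ℂ) = g.1 p + g.1 (τ p) := this
    linear_combination -h0
  have hsurj : Function.Surjective L := LinearMap.surjective_of_injective hinj
  have hmψ : (fun p => φ p + φ (dR μ p)) ∈ anti5 m := (anti5 m).add_mem hφ (split_mem_dR hm μ hφ)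
  obtain ⟨f, hf⟩ := hsurj ⟨_, hmψ⟩
  have hfp : ∀ p, f.1 p + f.1 (τ p) = φ p + φ (dR μ p) := by
    intro p
    rw [← hL, hf]
  have hτ' : ∀ p, τ p = ng (dR μ p) := fun p => rfl
  have haf : ∀ p, f.1 (ng p) = f.1 p := by
    have hsub : (⟨fun p => f.1 (ng p), split_mem_ng f.2⟩ : anti5 m) - f = 0 := by
      refine hinjg _ (fun p => ?_)
      show f.1 (ng (τ p)) - f.1 (τ p) = -(f.1 (ng p) - f.1 p)
      have e1 := hfp p
      have e2 := hfp (dR μ p)
      rw [hτ', split_dR_dR] at e2
      rw [hτ', split_ng_ng]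
      rw [hτ'] at e1
      linear_combination e2 - e1
    intro p
    have := congrArg (fun g : anti5 m => g.1 p) hsub
    have h0 : f.1 (ng p) - f.1 p = 0 := this
    exact sub_eq_zero.1 h0
  refine ⟨f.1, f.2, fun p => φ p - f.1 p, (anti5 m).sub_mem hφ f.2, haf, ?_, fun p => by ring⟩
  intro p
  have e1 := hfp p
  rw [hτ', haf] at e1
  show φ (dR μ p) - f.1 (dR μ p) = -(φ p - f.1 p)
  linear_combination -e1

end Pool.Agent.Helper33.TL
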